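import Mathlib

/-!
# The probability of a lonely random walker is not monotone in time

For `n` independent simple random walks on the `d`-dimensional integer lattice started at the
origin, let `p n d t` be the probability that at least one of them is alone at its site after `t`
steps.  We show that `t ↦ p 512 1 t` is not monotone: `p 512 1 10 < p 512 1 9`.
-/

set_option autoImplicit false

namespace Pool.Agent.Results.MP_ca7dc8_pr.LonelyNotMonotone

/-- A trajectory of `t` steps on the `d`-dimensional integer lattice: each step is one of the `2 d`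
unit vectors, encoded by a coordinate and a sign. -/
abbrev Path (d t : ℕ) : Type := Fin t → Fin d × Bool

/-- The position reached from the origin after the `t` steps of the trajectory `w`. -/
def position {d t : ℕ} (w : Path d t) : Fin d → ℤ :=
  ∑ k : Fin t, Pi.single (w k).1 (if (w k).2 then (1 : ℤ) else -1)

/-- Walker `i` is lonely: no other walker is at the same site. -/
def Lonely {n d t : ℕ} (w : Fin n → Path d t) (i : Fin n) : Prop :=
  ∀ j : Fin n, j ≠ i → position (w j) ≠ position (w i)

/-- The probability that at least one of `n` independent simple random walks on the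
`d`-dimensional lattice, all started at the origin, is lonely at time `t`: the proportion of the
`(2 d) ^ (t n)` equally likely `n`-tuples of `t`-step trajectories with a lonely walker. -/
noncomputable def p (n d t : ℕ) : ℝ :=
  (Nat.card {w : Fin n → Path d t // ∃ i, Lonely w i} : ℝ) / (Nat.card (Fin n → Path d t) : ℝ)

section Helpers

open Finset

/-- the number of steps to the right -/
def cnt {t : ℕ} (w : Path 1 t) : ℕ := #{k : Fin t | (w k).2 = true}

theorem position_eq {t : ℕ} (w : Path 1 t) : position w 0 = 2 * (cnt w : ℤ) - t := by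
  unfold position cnt
  rw [Finset.sum_apply]
  have h : ∀ k : Fin t, (Pi.single (w k).1 (if (w k).2 then (1 : ℤ) else -1) : Fin 1 → ℤ) 0 =
      2 * (if (w k).2 = true then 1 else 0) - 1 := by
    intro k
    have h0 : (w k).1 = 0 := Subsingleton.elim _ _
    rw [h0, Pi.single_eq_same]
    split_ifs <;> norm_num
  rw [Finset.sum_congr rfl (fun k _ => h k), Finset.sum_sub_distrib, ← Finset.mul_sum]
  simp

theorem position_eq_iff {t : ℕ} (w w' : Path 1 t) : position w = position w' ↔ cnt w = cnt w' := by
  constructor
  · intro h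
    have := congrFun h 0
    rw [position_eq, position_eq] at this
    omega
  · intro h
    funext i
    have hi : i = 0 := Subsingleton.elim _ _
    rw [hi, position_eq, position_eq, h]

theorem cnt_le {t : ℕ} (w : Path 1 t) : cnt w ≤ t := by
  unfold cnt
  exact (Finset.card_filter_le _ _).trans (by simp)

/-- number of paths with `k` steps to the right -/
theorem card_cnt (t k : ℕ) : #{w : Path 1 t | cnt w = k} = t.choose k := by
  have h : #{w : Path 1 t | cnt w = k} = #(Finset.powersetCard k (Finset.univ : Finset (Fin t))) := by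
    apply Finset.card_bij (fun w _ => Finset.univ.filter (fun j : Fin t => (w j).2 = true))
    · intro w hw
      simp only [Finset.mem_filter, Finset.mem_univ, true_and] at hw
      rw [Finset.mem_powersetCard]
      exact ⟨Finset.subset_univ _, hw⟩
    · intro w _ w' _ h
      funext j
      have h1 : (w j).2 = (w' j).2 := by
        have := Finset.ext_iff.1 h j
        simp only [Finset.mem_filter, Finset.mem_univ, true_and] at this
        exact Bool.eq_iff_iff.2 this
      exact Prod.ext (Subsingleton.elim _ _) h1
    · intro s hs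
      rw [Finset.mem_powersetCard] at hs
      refine ⟨fun j => (0, decide (j ∈ s)), ?_, ?_⟩
      · rw [Finset.mem_filter]
        refine ⟨Finset.mem_univ _, ?_⟩
        unfold cnt
        rw [← hs.2]
        congr 1
        ext j
        simp
      · ext j; simp
  rw [h, Finset.card_powersetCard, Finset.card_univ, Fintype.card_fin]

theorem card_Path (t : ℕ) : Fintype.card (Path 1 t) = 2 ^ t := by
  simp [Path]

section general

variable {Ω : Type} [Fintype Ω] [DecidableEq Ω] (f : Ω → ℕ)

/-- exactly one of the `n` walkers has label `k` -/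
def E (n k : ℕ) : Finset (Fin n → Ω) :=
  {w | ∃ i, f (w i) = k ∧ ∀ j, j ≠ i → f (w j) ≠ k}

theorem mem_E (n k : ℕ) (w : Fin n → Ω) :
    w ∈ E f n k ↔ ∃ i, f (w i) = k ∧ ∀ j, j ≠ i → f (w j) ≠ k := by
  simp [E]

theorem card_E (n k : ℕ) :
    #(E f n k) = n * (#{x : Ω | f x = k} * (Fintype.card Ω - #{x : Ω | f x = k}) ^ (n - 1)) := by
  classical
  have h1 : E f n k = Finset.univ.biUnion (fun i : Fin n =>
      Fintype.piFinset (fun j : Fin n => if j = i then ({x : Ω | f x = k} : Finset Ω)
        else ({x : Ω | f x = k} : Finset Ω)ᶜ)) := by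
    ext w
    rw [mem_E]
    simp only [Finset.mem_biUnion, Finset.mem_univ, true_and, Fintype.mem_piFinset]
    constructor
    · rintro ⟨i, h1, h2⟩
      refine ⟨i, fun j => ?_⟩
      by_cases hj : j = i
      · simp [hj, h1]
      · simp [hj, h2 j hj]
    · rintro ⟨i, h⟩
      refine ⟨i, by simpa using h i, fun j hj => ?_⟩
      have := h j
      simpa [hj] using this
  rw [h1, Finset.card_biUnion]
  · have h2 : ∀ i : Fin n, #(Fintype.piFinset (fun j : Fin n => if j = i then
        ({x : Ω | f x = k} : Finset Ω) else ({x : Ω | f x = k} : Finset Ω)ᶜ)) =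
        #{x : Ω | f x = k} * (Fintype.card Ω - #{x : Ω | f x = k}) ^ (n - 1) := by
      intro i
      rw [Fintype.card_piFinset, ← Finset.mul_prod_erase _ _ (Finset.mem_univ i)]
      rw [if_pos rfl]
      congr 1
      rw [Finset.prod_congr rfl (g := fun _ => Fintype.card Ω - #{x : Ω | f x = k})]
      · rw [Finset.prod_const, Finset.card_erase_of_mem (Finset.mem_univ i), Finset.card_univ,
          Fintype.card_fin]
      · intro j hj
        rw [if_neg (Finset.ne_of_mem_erase hj), Finset.card_compl]
    rw [Finset.sum_congr rfl (fun i _ => h2 i), Finset.sum_const, Finset.card_univ,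
      Fintype.card_fin, smul_eq_mul]
  · intro i _ i' _ hne
    rw [Function.onFun, Finset.disjoint_left]
    intro w hw hw'
    rw [Fintype.mem_piFinset] at hw hw'
    have a := hw i
    have b := hw' i
    rw [if_pos rfl] at a
    rw [if_neg hne, Finset.mem_compl] at b
    exact b a

theorem card_E_inter (n k l : ℕ) (hkl : k ≠ l) :
    #(E f n k ∩ E f n l) = n * (n - 1) * (#{x : Ω | f x = k} * #{x : Ω | f x = l} *
      (Fintype.card Ω - #{x : Ω | f x = k} - #{x : Ω | f x = l}) ^ (n - 2)) := by
  classical
  set K : Finset Ω := {x : Ω | f x = k} with hK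
  set L : Finset Ω := {x : Ω | f x = l} with hL
  have hKL : Disjoint K L := by
    rw [Finset.disjoint_left]
    intro x hx hx'
    simp only [hK, hL, Finset.mem_filter, Finset.mem_univ, true_and] at hx hx'
    exact hkl (hx.symm.trans hx')
  let S : Fin n × Fin n → Fin n → Finset Ω := fun q j =>
    if j = q.1 then K else if j = q.2 then L else (K ∪ L)ᶜ
  have h1 : E f n k ∩ E f n l =
      (Finset.univ.offDiag : Finset (Fin n × Fin n)).biUnion (fun q => Fintype.piFinset (S q)) := by
    ext w
    rw [Finset.mem_inter, mem_E, mem_E]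
    simp only [Finset.mem_biUnion, Finset.mem_offDiag, Finset.mem_univ, true_and,
      Fintype.mem_piFinset, S]
    constructor
    · rintro ⟨⟨i, h1, h2⟩, ⟨i', h3, h4⟩⟩
      have hne : i ≠ i' := by
        rintro rfl
        exact hkl (h1.symm.trans h3)
      refine ⟨(i, i'), hne, fun j => ?_⟩
      by_cases hj : j = i
      · simp [hj, h1, hK]
      · by_cases hj' : j = i'
        · rw [if_neg hj, if_pos hj', hj']
          simp [hL, h3]
        · rw [if_neg hj, if_neg hj']
          simp [hK, hL, h2 j hj, h4 j hj']
    · rintro ⟨⟨i, i'⟩, hne, h⟩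
      simp only at hne h
      refine ⟨⟨i, ?_, fun j hj => ?_⟩, ⟨i', ?_, fun j hj => ?_⟩⟩
      · simpa [hK] using h i
      · have := h j
        rw [if_neg hj] at this
        by_cases hj' : j = i'
        · rw [if_pos hj'] at this
          intro hc
          simp only [hL, Finset.mem_filter, Finset.mem_univ, true_and] at this
          exact hkl (hc.symm.trans this)
        · rw [if_neg hj', Finset.mem_compl, Finset.mem_union, not_or] at this
          simpa [hK] using this.1
      · have := h i'
        rw [if_neg (Ne.symm hne), if_pos rfl] at this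
        simpa [hL] using this
      · have := h j
        by_cases hj' : j = i
        · rw [if_pos hj'] at this
          intro hc
          simp only [hK, Finset.mem_filter, Finset.mem_univ, true_and] at this
          exact hkl (this.symm.trans hc)
        · rw [if_neg hj', if_neg hj, Finset.mem_compl, Finset.mem_union, not_or] at this
          simpa [hL] using this.2
  rw [h1, Finset.card_biUnion]
  · have h2 : ∀ q ∈ (Finset.univ.offDiag : Finset (Fin n × Fin n)),
        #(Fintype.piFinset (S q)) = #K * #L * (Fintype.card Ω - #K - #L) ^ (n - 2) := by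
      rintro ⟨i, i'⟩ hq
      have hne : i ≠ i' := (Finset.mem_offDiag.1 hq).2.2
      have hi' : i' ∈ Finset.univ.erase i := Finset.mem_erase.2 ⟨hne.symm, Finset.mem_univ _⟩
      rw [Fintype.card_piFinset, ← Finset.mul_prod_erase _ _ (Finset.mem_univ i),
        ← Finset.mul_prod_erase _ _ hi']
      have e1 : S (i, i') i = K := if_pos rfl
      have e2 : S (i, i') i' = L := by
        simp only [S, if_neg hne.symm, if_true]
      rw [e1, e2, mul_assoc]
      congr 2
      rw [Finset.prod_congr rfl (g := fun _ => Fintype.card Ω - #K - #L)]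
      · rw [Finset.prod_const, Finset.card_erase_of_mem hi',
          Finset.card_erase_of_mem (Finset.mem_univ i), Finset.card_univ, Fintype.card_fin]
        rfl
      · intro j hj
        have hj1 : j ≠ i' := Finset.ne_of_mem_erase hj
        have hj2 : j ≠ i := Finset.ne_of_mem_erase (Finset.mem_of_mem_erase hj)
        simp only [S]
        rw [if_neg hj2, if_neg hj1, Finset.card_compl, Finset.card_union_of_disjoint hKL,
          Nat.sub_sub]
    rw [Finset.sum_congr rfl h2, Finset.sum_const, Finset.offDiag_card, Finset.card_univ,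
      Fintype.card_fin, smul_eq_mul]
    congr 1
    rw [Nat.mul_sub, mul_one]
  · rintro ⟨i, i'⟩ hq ⟨j, j'⟩ hq' hne
    rw [Function.onFun, Finset.disjoint_left]
    intro w hw hw'
    have hii : i ≠ i' := (Finset.mem_offDiag.1 (Finset.mem_coe.1 hq)).2.2
    rw [Fintype.mem_piFinset] at hw hw'
    apply hne
    have key1 : i = j := by
      by_contra hc
      have a := hw i
      have b := hw' i
      simp only [S, if_true] at a b
      rw [if_neg hc] at b
      by_cases hij : i = j'
      · rw [if_pos hij] at b
        exact Finset.disjoint_left.1 hKL a b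
      · rw [if_neg hij, Finset.mem_compl, Finset.mem_union, not_or] at b
        exact b.1 a
    have key2 : i' = j' := by
      by_contra hc
      have a := hw i'
      have b := hw' i'
      simp only [S, if_true] at a b
      rw [if_neg hii.symm] at a
      rw [if_neg (by rw [← key1]; exact hii.symm), if_neg hc, Finset.mem_compl,
        Finset.mem_union, not_or] at b
      exact b.2 a
    rw [key1, key2]

end general

theorem lonely_iff {n t : ℕ} (w : Fin n → Path 1 t) :
    (∃ i, Lonely w i) ↔ ∃ k ∈ Finset.range (t + 1), w ∈ E cnt n k := by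
  constructor
  · rintro ⟨i, hi⟩
    refine ⟨cnt (w i), Finset.mem_range.2 (Nat.lt_succ_of_le (cnt_le _)), ?_⟩
    rw [mem_E]
    exact ⟨i, rfl, fun j hj h => hi j hj ((position_eq_iff _ _).2 h)⟩
  · rintro ⟨k, _, hk⟩
    rw [mem_E] at hk
    obtain ⟨i, h1, h2⟩ := hk
    exact ⟨i, fun j hj h => h2 j hj (((position_eq_iff _ _).1 h).trans h1)⟩

open Classical in
/-- the number of configurations with a lonely walker -/
noncomputable def good (n t : ℕ) : Finset (Fin n → Path 1 t) :=
  Finset.univ.filter (fun w => ∃ i, Lonely w i)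

theorem p_eq (n t : ℕ) : p n 1 t = (#(good n t) : ℝ) / ((2 ^ t) ^ n : ℕ) := by
  classical
  unfold p
  congr 2
  · rw [Nat.card_eq_fintype_card, Fintype.card_subtype]
    congr 1
  · rw [Nat.card_eq_fintype_card, Fintype.card_fun, card_Path, Fintype.card_fin]

theorem lower (n t : ℕ) (ht : t ≠ 0) :
    2 * (n * (2 ^ t - 1) ^ (n - 1)) ≤ #(good n t) + n * (n - 1) * (2 ^ t - 2) ^ (n - 2) := by
  have h1 : E cnt n 0 ∪ E cnt n t ⊆ good n t := by
    intro w hw
    rw [Finset.mem_union] at hw
    simp only [good, Finset.mem_filter, Finset.mem_univ, true_and]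
    rw [lonely_iff]
    rcases hw with h | h
    · exact ⟨0, by simp, h⟩
    · exact ⟨t, by simp, h⟩
  have h2 := Finset.card_le_card h1
  have h3 := Finset.card_union_add_card_inter (E (cnt (t := t)) n 0) (E cnt n t)
  rw [card_E, card_E, card_E_inter _ _ _ _ (Ne.symm ht)] at h3
  simp only [card_cnt, card_Path, Nat.choose_zero_right, Nat.choose_self, one_mul] at h3
  rw [Nat.sub_sub] at h3
  norm_num at h3
  omega

theorem upper (n t : ℕ) (ht : t ≠ 0) :
    #(good n t) + n * (n - 1) * (2 ^ t - 2) ^ (n - 2) ≤
      ∑ k ∈ Finset.range (t + 1), n * (t.choose k * (2 ^ t - t.choose k) ^ (n - 1)) := by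
  classical
  have h1 : good n t ⊆ (E cnt n 0 ∪ E cnt n t) ∪
      (((Finset.range (t + 1)).erase 0).erase t).biUnion (fun k => E cnt n k) := by
    intro w hw
    simp only [good, Finset.mem_filter, Finset.mem_univ, true_and] at hw
    rw [lonely_iff] at hw
    obtain ⟨k, hk, hw⟩ := hw
    by_cases h0 : k = 0
    · subst h0
      exact Finset.mem_union_left _ (Finset.mem_union_left _ hw)
    · by_cases h0' : k = t
      · subst h0'
        exact Finset.mem_union_left _ (Finset.mem_union_right _ hw)
      · apply Finset.mem_union_right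
        rw [Finset.mem_biUnion]
        exact ⟨k, Finset.mem_erase.2 ⟨h0', Finset.mem_erase.2 ⟨h0, hk⟩⟩, hw⟩
  have h2 := (Finset.card_le_card h1).trans (Finset.card_union_le _ _)
  have h3 := Finset.card_union_add_card_inter (E (cnt (t := t)) n 0) (E cnt n t)
  have h4 : #((((Finset.range (t + 1)).erase 0).erase t).biUnion (fun k => E (cnt (t := t)) n k)) ≤
      ∑ k ∈ ((Finset.range (t + 1)).erase 0).erase t, #(E (cnt (t := t)) n k) :=
    Finset.card_biUnion_le
  have h5 : ∑ k ∈ Finset.range (t + 1), #(E (cnt (t := t)) n k) =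
      #(E (cnt (t := t)) n 0) + (#(E (cnt (t := t)) n t) +
        ∑ k ∈ ((Finset.range (t + 1)).erase 0).erase t, #(E (cnt (t := t)) n k)) := by
    rw [Finset.add_sum_erase ((Finset.range (t + 1)).erase 0)
        (fun k => #(E (cnt (t := t)) n k)) (Finset.mem_erase.2 ⟨ht, by simp⟩),
      Finset.add_sum_erase (Finset.range (t + 1))
        (fun k => #(E (cnt (t := t)) n k)) (by simp)]
  have h6 : ∑ k ∈ Finset.range (t + 1), #(E (cnt (t := t)) n k) =
      ∑ k ∈ Finset.range (t + 1), n * (t.choose k * (2 ^ t - t.choose k) ^ (n - 1)) := by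
    apply Finset.sum_congr rfl
    intro k _
    rw [card_E, card_cnt, card_Path]
  have h7 : #(E (cnt (t := t)) n 0 ∩ E cnt n t) = n * (n - 1) * (2 ^ t - 2) ^ (n - 2) := by
    rw [card_E_inter _ _ _ _ (Ne.symm ht)]
    simp only [card_cnt, card_Path, Nat.choose_zero_right, Nat.choose_self, one_mul]
    rw [Nat.sub_sub]
  rw [← h6, h5, ← h7]
  omega

theorem numeric :
    (∑ k ∈ Finset.range (10 + 1), 512 * (Nat.choose 10 k * (2 ^ 10 - Nat.choose 10 k) ^ (512 - 1)))
        * (2 ^ 9) ^ 512 + 512 * (512 - 1) * (2 ^ 9 - 2) ^ (512 - 2) * (2 ^ 10) ^ 512 <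
      2 * (512 * (2 ^ 9 - 1) ^ (512 - 1)) * (2 ^ 10) ^ 512 +
        512 * (512 - 1) * (2 ^ 10 - 2) ^ (512 - 2) * (2 ^ 9) ^ 512 := by
  decide +kernel

theorem final (a b A B X Y N M : ℕ) (hN : 0 < N) (hM : 0 < M) (h1 : B ≤ a + Y) (h2 : b + X ≤ A)
    (h : A * N + Y * M < B * M + X * N) : (b : ℝ) / (M : ℕ) < (a : ℝ) / (N : ℕ) := by
  have hN' : (0 : ℝ) < (N : ℝ) := by exact_mod_cast hN
  have hM' : (0 : ℝ) < (M : ℝ) := by exact_mod_cast hM
  rw [div_lt_div_iff₀ hM' hN']
  have h3 := Nat.mul_le_mul_right M h1
  have h4 := Nat.mul_le_mul_right N h2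
  have h5 : b * N < a * M := by
    rw [add_mul] at h3 h4
    linarith
  exact_mod_cast h5

theorem key : p 512 1 10 < p 512 1 9 := by
  rw [p_eq, p_eq]
  exact final _ _ _ _ _ _ _ _ (Nat.pow_pos (Nat.pow_pos Nat.two_pos))
    (Nat.pow_pos (Nat.pow_pos Nat.two_pos)) (lower 512 9 (by norm_num))
    (upper 512 10 (by norm_num)) numeric

end Helpers

/-- For `d = 1` and `n = 512` walkers the probability that at least one walker is lonely strictly
decreases from time `9` to time `10`. In particular, the monotonicity asked for fails. -/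
theorem result : ∃ d n t : ℕ, 1 ≤ d ∧ 1 ≤ n ∧ p n d (t + 1) < p n d t :=
  ⟨1, 512, 9, le_refl _, by norm_num, key⟩

end Pool.Agent.Results.MP_ca7dc8_pr.LonelyNotMonotone
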